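import Pool.Agent.Y493.Br.Jet
import Pool.Agent.Y899.BR.L1

set_option autoImplicit false

/-!
Soundness of one derivation step in a differential ring (job BR-L4).
-/

namespace Y261.BR

open Y493.Br.Refl Y493.Br.Pk Y493.Br.Jet Y899.BR

section sem
variable {A : Type} [CommRing A]

theorem mev_rmM (v : Nat → A) (j : Nat) (m : Mo) :
    (cntM j m : A) * (v j * mev v (rmM j m)) = (cntM j m : A) * mev v m := by
  induction m with
  | nil => simp [cntM]
  | cons x m ih =>
    cases hjx : Nat.beq j x with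
    | true =>
      have h := Nat.eq_of_beq_eq_true hjx
      subst h
      simp only [rmM, hjx, cond_true, mev_cons]
    | false =>
      simp only [rmM, cntM, hjx, cond_false, mev_cons]
      linear_combination (v x) * ih

theorem der_mev_step (D : Derivation ℤ A A) (v : Nat → A) (i j : Nat) (m : Mo) :
    (cntM i (j :: m) : A) * mev v (rmM i (j :: m)) * D (v i) =
      v j * ((cntM i m : A) * mev v (rmM i m) * D (v i)) +
        (if i = j then mev v m * D (v i) else 0) := by
  cases hij : Nat.beq i j with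
  | true =>
    have h := Nat.eq_of_beq_eq_true hij
    subst h
    have h1 := mev_rmM v i m
    simp only [rmM, cntM, hij, cond_true, if_true, Nat.succ_eq_add_one, Nat.cast_add, Nat.cast_one]
    linear_combination (-D (v i)) * h1
  | false =>
    have h : i ≠ j := Nat.ne_of_beq_eq_false hij
    simp only [rmM, cntM, hij, cond_false, if_neg h, mev_cons]
    ring

theorem der_mev (D : Derivation ℤ A A) (v : Nat → A) (n : Nat) (m : Mo) (hm : ltM n m = true) :
    D (mev v m) = ∑ i ∈ Finset.range n, (cntM i m : A) * mev v (rmM i m) * D (v i) := by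
  induction m with
  | nil => simp [cntM, mev_nil]
  | cons j m ih =>
    simp only [ltM, Bool.and_eq_true] at hm
    have hj : j < n := by
      have := hm.1
      simpa [Nat.blt_eq] using this
    rw [mev_cons, Derivation.leibniz, ih hm.2]
    simp only [der_mev_step, Finset.sum_add_distrib, ← Finset.mul_sum, smul_eq_mul]
    rw [Finset.sum_ite_eq' (Finset.range n) j, if_pos (Finset.mem_range.2 hj)]

theorem pev_pdv (r : A) (v : Nat → A) (i : Nat) (t : Mo × Cf) (P : Po) :
    pev r v (pdv i (t :: P)) =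
      cev r t.2 * ((cntM i t.1 : A) * mev v (rmM i t.1)) + pev r v (pdv i P) := by
  rw [pdv]
  cases h : cntM i t.1 with
  | zero => simp
  | succ k =>
    simp only [pev_cons, cev_csmul]
    have h1 : ((Int.ofNat (k + 1) : Int) : A) = ((k + 1 : ℕ) : A) := by
      simp
    rw [h1]
    ring

theorem der_pev (D : Derivation ℤ A A) (r : A) (v : Nat → A) (n : Nat) (P : Po)
    (hP : ltP n P = true) :
    D (pev r v P) = pev r v (pdr P) * D r +
      ∑ i ∈ Finset.range n, pev r v (pdv i P) * D (v i) := by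
  induction P with
  | nil => simp [pdr, pdv, pev_nil]
  | cons t P ih =>
    simp only [ltP, Bool.and_eq_true] at hP
    have h1 : pev r v (pdr (t :: P)) = cev r (cder t.2) * mev v t.1 + pev r v (pdr P) := rfl
    rw [pev_cons, map_add, Derivation.leibniz, ih hP.2, cev_cder D r t.2,
      der_mev D v n t.1 hP.1, h1]
    simp only [pev_pdv, add_mul, Finset.sum_add_distrib, smul_eq_mul, Finset.mul_sum, mul_assoc]
    ring

theorem sem_derEx (r : A) (v : Nat → A) (dr : Po) (dv : Nat → Po) (P : Po) (n : Nat) :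
    (derEx dr dv P n).sem r v = pev r v (pdr P) * pev r v dr +
      ∑ i ∈ Finset.range n, pev r v (pdv i P) * pev r v (dv i) := by
  induction n with
  | zero => simp [derEx, Ex.sem]
  | succ n ih =>
    rw [Finset.sum_range_succ]
    simp only [derEx, Ex.sem] at ih ⊢
    rw [ih]
    ring

theorem pev_unitP (r : A) (v : Nat → A) (c : Int) (a b : Nat) :
    pev r v (unitP c a b) = (c : A) * (1 + r) ^ a * (1 - r) ^ b := by
  simp only [unitP, pev_cons, pev_nil, mev_nil, cev_cmul, cev_cpow, cev_cons, cev_nil]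
  push_cast
  ring_nf

theorem ltP_unitP (n : Nat) (c : Int) (a b : Nat) : ltP n (unitP c a b) = true := rfl

end sem

section main
variable {A : Type} [CommRing A] {T : Tab} {e : Fin 3 → Derivation ℤ A A} {r : A} {v : Nat → A}

/-- the value of `Q` -/
noncomputable def Qv (T : Tab) (r : A) : A := (T.q : A) * (1 + r) ^ T.a * (1 - r) ^ T.b

theorem pev_Q (v : Nat → A) : pev r v T.Q = Qv T r := by
  rw [Tab.Q, pev_unitP, Qv]
  simp

theorem sem_der (h : Holds T e r v) (l : Fin 3) (P : Po) (hP : ltP T.n P = true) :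
    (T.der l P).sem r v = Qv T r * e l (pev r v P) := by
  have h1 := der_pev (e l) r v T.n P hP
  rw [Tab.der, sem_derEx, h1, ← h.hr l, mul_add, Finset.mul_sum]
  congr 1
  · rw [Qv]; ring
  · refine Finset.sum_congr rfl fun i hi => ?_
    rw [← h.hv l i (Finset.mem_range.1 hi), Qv]
    ring

theorem sem_der' (h : Holds T e r v) (l : Nat) (hl : l < 3) (P : Po) (hP : ltP T.n P = true) :
    (T.der l P).sem r v = Qv T r * e (Fin.ofNat 3 l) (pev r v P) := by
  have h1 := sem_der h (Fin.ofNat 3 l) P hP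
  have h2 : ((Fin.ofNat 3 l : Fin 3) : ℕ) = l := by
    simp [Fin.ofNat, Nat.mod_eq_of_lt hl]
  rwa [h2] at h1

theorem hv' (h : Holds T e r v) (l : Nat) (hl : l < 3) (i : Nat) (hi : i < T.n) :
    pev r v (T.dv l i) = Qv T r * e (Fin.ofNat 3 l) (v i) := by
  have h1 := h.hv (Fin.ofNat 3 l) i hi
  have h2 : ((Fin.ofNat 3 l : Fin 3) : ℕ) = l := by
    simp [Fin.ofNat, Nat.mod_eq_of_lt hl]
  rw [h2] at h1
  rw [← h1, Qv]

theorem fstI_lt (p : Nat) : fstI p < 3 := by
  unfold fstI; split <;> omega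

theorem sndI_lt (p : Nat) : sndI p < 3 := by
  unfold sndI; split <;> omega

theorem sem_tors (h : Holds T e r v) (p : Nat) (hp : p < 3) (k : Nat) (hk : k < T.n)
    (h1 : ltP T.n (T.dv (fstI p) k) = true) (h2 : ltP T.n (T.dv (sndI p) k) = true) :
    (T.tors p k).sem r v = 0 := by
  have hi := fstI_lt p
  have hj := sndI_lt p
  have hb := h.tors p hp (v k)
  have hQ : ltP T.n T.Q = true := ltP_unitP _ _ _ _
  have e0 : (Fin.ofNat 3 0 : Fin 3) = 0 := rfl
  have e1 : (Fin.ofNat 3 1 : Fin 3) = 1 := rfl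
  have e2 : (Fin.ofNat 3 2 : Fin 3) = 2 := rfl
  have v0 := hv' h 0 (by norm_num) k hk
  have v1 := hv' h 1 (by norm_num) k hk
  have v2 := hv' h 2 (by norm_num) k hk
  rw [e0] at v0
  rw [e1] at v1
  rw [e2] at v2
  simp only [Tab.tors, Ex.sem]
  rw [sem_der' h _ hi _ h2, sem_der' h _ hj _ h1, sem_der' h _ hj _ hQ, sem_der' h _ hi _ hQ, pev_Q,
    hv' h _ hi k hk, hv' h _ hj k hk, v0, v1, v2, pev_unitP, pev_unitP, pev_unitP,
    Derivation.leibniz, Derivation.leibniz]
  set i := (Fin.ofNat 3 (fstI p) : Fin 3) with hidef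
  set j := (Fin.ofNat 3 (sndI p) : Fin 3) with hjdef
  obtain ⟨a', ha'⟩ : ∃ a', T.a = a' + 1 := ⟨T.a - 1, by have := h.apos; omega⟩
  obtain ⟨b', hb'⟩ : ∃ b', T.b = b' + 1 := ⟨T.b - 1, by have := h.bpos; omega⟩
  have hsq : Qv T r * Qv T r = ((T.q : A) * (T.q : A)) * (1 + r) ^ (T.a + T.a - 1) *
      (1 - r) ^ (T.b + T.b - 1) * ((1 + r) * (1 - r)) := by
    rw [Qv, ha', hb']
    have h3 : a' + 1 + (a' + 1) - 1 = a' + 1 + a' := by omega
    have h4 : b' + 1 + (b' + 1) - 1 = b' + 1 + b' := by omega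
    rw [h3, h4]
    simp only [pow_add, pow_one]
    ring
  have hQ2 : (((2 * Int.ofNat T.q : ℤ)) : A) * (1 + r) ^ T.a * (1 - r) ^ T.b = 2 * Qv T r := by
    rw [Qv]; push_cast; simp; ring
  have hc : ((Int.ofNat T.q * Int.ofNat T.q : ℤ) : A) = (T.q : A) * (T.q : A) := by
    push_cast; simp
  rw [hQ2, hc]
  simp only [smul_eq_mul, pow_zero, mul_one, Int.cast_ofNat]
  linear_combination ((T.q : A) * (T.q : A)) * (1 + r) ^ (T.a + T.a - 1) *
      (1 - r) ^ (T.b + T.b - 1) * Qv T r * hb +
      2 * Qv T r * (e i (e j (v k)) - e j (e i (v k))) * hsq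

theorem sem_sumDers (h : Holds T e r v) (Z : List Po) (hZ : ∀ P ∈ Z, pev r v P = 0)
    (l : List (Po × Nat × Nat)) (hl : okDers T Z l = true) : (sumDers T Z l).sem r v = 0 := by
  induction l with
  | nil => simp [sumDers, Ex.sem, pev_nil]
  | cons d l ih =>
    simp only [okDers, Bool.and_eq_true, Nat.blt_eq] at hl
    obtain ⟨h1, h2, h3⟩ := hl
    simp only [sumDers, Ex.sem]
    rw [ih h3, sem_der' h _ h1 _ h2]
    have h4 : pev r v (Z.getD d.2.2 []) = 0 := by
      rcases lt_or_ge d.2.2 Z.length with h5 | h5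
      · rw [List.getD_eq_getElem _ _ h5]
        exact hZ _ (List.getElem_mem h5)
      · rw [List.getD_eq_default _ _ h5, pev_nil]
    rw [h4]
    simp

theorem sem_sumTors (h : Holds T e r v) (l : List (Po × Nat × Nat)) (hl : okTors T l = true) :
    (sumTors T l).sem r v = 0 := by
  induction l with
  | nil => simp [sumTors, Ex.sem, pev_nil]
  | cons d l ih =>
    simp only [okTors, Bool.and_eq_true, Nat.blt_eq] at hl
    obtain ⟨h1, h2, h3, h4, h5⟩ := hl
    simp only [sumTors, Ex.sem]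
    rw [ih h5, sem_tors h _ h1 _ h2 h3 h4]
    simp

theorem sem_sumLins (Z : List Po) (hZ : ∀ P ∈ Z, pev r v P = 0) (l : List (Po × Nat)) :
    (sumLins Z l).sem r v = 0 := by
  induction l with
  | nil => simp [sumLins, Ex.sem, pev_nil]
  | cons d l ih =>
    simp only [sumLins, Ex.sem]
    rw [ih]
    have h4 : pev r v (Z.getD d.2 []) = 0 := by
      rcases lt_or_ge d.2 Z.length with h5 | h5
      · rw [List.getD_eq_getElem _ _ h5]
        exact hZ _ (List.getElem_mem h5)
      · rw [List.getD_eq_default _ _ h5, pev_nil]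
    rw [h4]
    simp

end main

theorem l4 : StL4 := by
  intro hL3 T A _ e r v h Z s hZ hs
  unfold Step.check at hs
  rw [Bool.and_eq_true, Bool.and_eq_true, Bool.and_eq_true] at hs
  obtain ⟨h0, h1, h2, h3⟩ := hs
  have hcu : 0 < Int.natAbs s.cu := by
    rcases Nat.eq_zero_or_pos (Int.natAbs s.cu) with h4 | h4
    · rw [h4] at h0; simp at h0
    · exact h4
  have h5 := hL3 _ h3 A r v
  simp only [Ex.sem] at h5
  rw [sem_sumDers h Z hZ _ h1, sem_sumTors h _ h2, sem_sumLins Z hZ, pev_unitP] at h5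
  have hu1 : IsUnit ((s.cu : ℤ) : A) := by
    have h6 := h.unitN _ hcu
    rcases Int.natAbs_eq s.cu with h7 | h7
    · rw [h7]; simpa using h6
    · rw [h7]; simpa using h6.neg
  have hu : IsUnit ((s.cu : A) * (1 + r) ^ s.a * (1 - r) ^ s.b) :=
    (hu1.mul (h.unit1.pow _)).mul (h.unit3.pow _)
  have h8 : (s.cu : A) * (1 + r) ^ s.a * (1 - r) ^ s.b * pev r v s.tgt = 0 := by
    simpa using h5
  exact (hu.mul_right_eq_zero).1 h8

end Y261.BR
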